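import Pool.Agent.helper57.PP.Spec

/-! Row EIJ -/

set_option autoImplicit false

namespace Pool.Agent.helper57.PP

open Finset

theorem EIJ_pair {W : Type} [DecidableEq W] {a b c d : W} (h : ({a, b} : Finset W) = {c, d}) :
    (a = c ∧ b = d) ∨ (a = d ∧ b = c) := by
  have ha : a ∈ ({c, d} : Finset W) := by rw [← h]; simp
  have hb : b ∈ ({c, d} : Finset W) := by rw [← h]; simp
  have hc : c ∈ ({a, b} : Finset W) := by rw [h]; simp
  have hd : d ∈ ({a, b} : Finset W) := by rw [h]; simp
  simp only [mem_insert, mem_singleton] at ha hb hc hd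
  rcases ha with rfl | rfl
  · rcases hd with rfl | rfl
    · rcases hb with rfl | rfl
      · exact Or.inl ⟨rfl, rfl⟩
      · exact Or.inl ⟨rfl, rfl⟩
    · exact Or.inl ⟨rfl, rfl⟩
  · rcases hc with rfl | rfl
    · rcases hb with rfl | rfl
      · exact Or.inl ⟨rfl, rfl⟩
      · exact Or.inl ⟨rfl, rfl⟩
    · exact Or.inr ⟨rfl, rfl⟩

theorem EIJ_z2 (a b : ZMod 2) (h : a ≠ b) : b = a + 1 := by
  revert a b
  decide

theorem EIJ_sgsg {V : Type} (x : V × ZMod 2) : sg (sg x) = x := by
  unfold sg
  ext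
  · rfl
  · show x.2 + 1 + 1 = x.2
    have : (1 : ZMod 2) + 1 = 0 := by decide
    rw [add_assoc, this, add_zero]

theorem EIJ (h1 : HS_stmt) (h2 : LED_stmt) (h3 : ISO_stmt) (_h4 : ZL_stmt) : EIJ_stmt := by
  intro V _ _ F w m p A hF hw hD hG hH e he e' he' hb hb' hfst
  obtain ⟨L1, _, L3, _, _⟩ := h2 V F w hF hw
  have hAG : edges A ⊆ edges (lift F w) := edges_mono hH.sub
  obtain ⟨x, y, hxy, rfl⟩ := Finset.card_eq_two.mp (mem_edges.mp he).1
  obtain ⟨x', y', hxy', rfl⟩ := Finset.card_eq_two.mp (mem_edges.mp he').1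
  -- exchange `x'` and `y'`
  obtain ⟨x', y', hxy', hx, hy, he', hb', hE⟩ : ∃ x'' y'' : V × ZMod 2, x'' ≠ y'' ∧ x.1 = x''.1 ∧
      y.1 = y''.1 ∧ ({x'', y''} : Finset (V × ZMod 2)) ∈ edges A ∧
      (∀ i < m, ({x'', y''} : Finset (V × ZMod 2)) ≠ {p i, p (i + 1)}) ∧
      ({x', y'} : Finset (V × ZMod 2)) = {x'', y''} := by
    have h5 : ({x.1, y.1} : Finset V) = {x'.1, y'.1} := by
      have h6 : ({x, y} : Finset (V × ZMod 2)).image Prod.fst = {x.1, y.1} := by
        rw [image_insert, image_singleton]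
      have h7 : ({x', y'} : Finset (V × ZMod 2)).image Prod.fst = {x'.1, y'.1} := by
        rw [image_insert, image_singleton]
      rw [← h6, ← h7]
      exact hfst
    rcases EIJ_pair h5 with ⟨h6, h7⟩ | ⟨h6, h7⟩
    · exact ⟨x', y', hxy', h6, h7, he', hb', rfl⟩
    · refine ⟨y', x', hxy'.symm, h6, h7, ?_, ?_, Finset.pair_comm _ _⟩
      · rw [Finset.pair_comm]
        exact he'
      · rw [Finset.pair_comm]
        exact hb'
  rw [hE]
  have hl := (L1 x y).mp (hAG he)
  have hl' := (L1 x' y').mp (hAG he')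
  have hsum : x.2 + y.2 = x'.2 + y'.2 := by
    rw [hl.2.2, hl'.2.2, hx, hy]
  by_cases h2' : x.2 = x'.2
  · have h3' : y.2 = y'.2 := by
      rw [h2'] at hsum
      exact add_left_cancel hsum
    have e1 : x = x' := Prod.ext hx h2'
    have e2 : y = y' := Prod.ext hy h3'
    rw [e1, e2]
  · exfalso
    have hx2 : x'.2 = x.2 + 1 := EIJ_z2 _ _ h2'
    have hy2 : y'.2 = y.2 + 1 := by
      rw [hx2] at hsum
      have h5 : x.2 + y.2 = x.2 + (1 + y'.2) := by rw [hsum]; ring
      have h6 := add_left_cancel h5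
      rw [h6]
      have : (1 : ZMod 2) + 1 = 0 := by decide
      rw [add_comm 1 y'.2, add_assoc, this, add_zero]
    have ex : x' = sg x := Prod.ext hx.symm hx2
    have ey : y' = sg y := Prod.ext hy.symm hy2
    have exs : x = sg x' := by rw [ex, EIJ_sgsg]
    have eys : y = sg y' := by rw [ey, EIJ_sgsg]
    -- a triangle on the other side
    obtain ⟨t', ht', hsub⟩ := (mem_edges.mp he').2
    have ht'G := hH.sub ht'
    have hn : t'.image sg ∉ A := (hH.half t' ht'G).mp ht'
    have hG2 : t'.image sg ∈ lift F w := L3 t' ht'G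
    have hsub2 : ({x, y} : Finset (V × ZMod 2)) ⊆ t'.image sg := by
      intro u hu
      rw [mem_insert, mem_singleton] at hu
      rcases hu with rfl | rfl
      · rw [exs]
        exact mem_image_of_mem _ (hsub (by simp))
      · rw [eys]
        exact mem_image_of_mem _ (hsub (by simp))
    have hcG : t'.image sg ∈ cof (lift F w) {x, y} := mem_cof.mpr ⟨hG2, hsub2⟩
    have hcA : t'.image sg ∉ cof A {x, y} := fun h => hn (mem_cof.mp h).1
    have hne : (cof A {x, y}).Nonempty :=
      (edges_iff_cof_nonempty (mem_edges.mp he).1).mp he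
    have hzt : ({x, y} : Finset (V × ZMod 2)) ∈ zt m p := by
      by_contra hz
      rcases (h1 (V × ZMod 2) (lift F w) sg m p A hD hG hH).1 _ (mem_edges.mp he).1 hz with h5 | h5
      · rw [h5] at hne
        exact Finset.not_nonempty_empty hne
      · rw [h5] at hcA
        exact hcA hcG
    unfold zt at hzt
    rw [mem_image] at hzt
    obtain ⟨i, hi, hie⟩ := hzt
    rw [mem_range] at hi
    have him : m ≤ i := by
      by_contra h5
      exact hb i (by omega) hie.symm
    have hper := hG.per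
    have h2m := (h3 (V × ZMod 2) (lift F w) sg m p hD hG).2.1
    have q1 : sg (p i) = p (i - m) := by
      rw [← hper i, ← h2m (i - m)]
      congr 1
      omega
    have q2 : sg (p (i + 1)) = p (i - m + 1) := by
      rw [← hper (i + 1), ← h2m (i - m + 1)]
      congr 1
      omega
    refine hb' (i - m) (by omega) ?_
    have h6 : ({x', y'} : Finset (V × ZMod 2)) = ({x, y} : Finset (V × ZMod 2)).image sg := by
      rw [image_insert, image_singleton, ex, ey]
    rw [h6, ← hie, image_insert, image_singleton, q1, q2]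

end Pool.Agent.helper57.PP
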